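import Pool.Agent.Helper85.QT.St1

set_option autoImplicit false

open MeasureTheory Matrix Set Topology
open scoped ENNReal ComplexConjugate

namespace Pool.Agent.Helper2.QT

open Pool.Agent.Helper85.QT Pool.Agent.Helper86.QA

private def Bl (ε : ℝ) (x : Pt) : Set Pt := {z | z ∈ up ∧ ch x z ≤ 1 + ε}

private theorem ch_meas : Measurable (fun p : Pt × Pt => ch p.1 p.2) := by
  unfold ch
  fun_prop

private theorem ch_meas2 (x : Pt) : Measurable (fun z : Pt => ch x z) := by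
  unfold ch
  fun_prop

private theorem Bl_meas (ε : ℝ) (x : Pt) : MeasurableSet (Bl ε x) :=
  up_meas.inter (measurableSet_le (ch_meas2 x) measurable_const)

private theorem oo_up : oo ∈ up := by
  change (0 : ℝ) < 1
  norm_num

private theorem vol_Bl (hACT : StACT) (hCHI : StCHI) (hVOL : StVOL) (ε : ℝ) (x : Pt)
    (hx : x ∈ up) : vol (Bl ε x) = vol (Bl ε oo) := by
  have hm : Measurable ((Bl ε x).indicator (1 : Pt → ℝ≥0∞)) :=
    measurable_one.indicator (Bl_meas ε x)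
  have h := hVOL.2.1 (gx x hx) ((Bl ε x).indicator 1) hm
  rw [lintegral_indicator_one (Bl_meas ε x)] at h
  rw [← h, ← lintegral_indicator_one (Bl_meas ε oo)]
  have hgo : ga (gx x hx) oo = x := by
    rw [hACT.2.2.2.2.1 x hx oo]
    simp [oo]
  refine lintegral_congr_ae ?_
  filter_upwards [ae_up] with z hz
  have h1 : ga (gx x hx) z ∈ up := (hACT.1 _ z hz).2.1
  have h2 : ch x (ga (gx x hx) z) = ch oo z := by
    have := (hCHI.2.1 (gx x hx) oo oo_up z hz).1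
    rw [hgo] at this
    exact this
  have h3 : ga (gx x hx) z ∈ Bl ε x ↔ z ∈ Bl ε oo := by
    unfold Bl
    simp only [mem_ofPred_eq, h2, h1, hz, true_and]
  by_cases h4 : z ∈ Bl ε oo
  · rw [indicator_of_mem h4, indicator_of_mem (h3.2 h4)]
    rfl
  · rw [indicator_of_notMem h4, indicator_of_notMem (fun h => h4 (h3.1 h))]

private theorem Bl_fin (hCHI : StCHI) (hVOL : StVOL) (ε : ℝ) (hε : ε ≤ 1) :
    vol (Bl ε oo) < ∞ := by
  have hll : 1 ≤ ll := by
    unfold ll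
    have := Real.sqrt_nonneg 3
    linarith
  have hK : IsCompact ((Metric.closedBall (0 : ℂ) (2 * ll)) ×ˢ (Icc (1 / ll) ll)) :=
    (isCompact_closedBall _ _).prod isCompact_Icc
  have hKu : (Metric.closedBall (0 : ℂ) (2 * ll)) ×ˢ (Icc (1 / ll) ll) ⊆ up := by
    rintro ⟨z, t⟩ ⟨-, h2⟩
    change 0 < t
    have : 0 < 1 / ll := by positivity
    exact lt_of_lt_of_le this h2.1
  refine lt_of_le_of_lt (measure_mono ?_) (hVOL.2.2.2 _ hK hKu)
  rintro z ⟨hz, hc⟩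
  obtain ⟨h1, h2, h3⟩ := hCHI.2.2.2.1 oo oo_up z hz (by linarith)
  simp only [oo, zero_sub, norm_neg, mul_one] at h1 h2 h3
  refine ⟨?_, ?_, h1⟩
  · rw [mem_closedBall_zero_iff]
    nlinarith [norm_nonneg z.1]
  · change 1 / ll ≤ z.2
    rw [div_le_iff₀ (by linarith)]
    linarith

private theorem Bl_pos (ε : ℝ) (hε : 0 < ε) : 0 < vol (Bl ε oo) := by
  set U : Set Pt := {z | z ∈ up ∧ ch oo z < 1 + ε} with hU
  have hUo : IsOpen U := by
    have hc : ContinuousOn (fun z : Pt => ch oo z) up := by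
      unfold ch
      refine ContinuousOn.div (by fun_prop) (by fun_prop) ?_
      intro z hz
      have hz' : 0 < z.2 := hz
      simp only [oo]
      positivity
    exact hc.isOpen_inter_preimage up_open isOpen_Iio
  have hUn : oo ∈ U := by
    refine ⟨oo_up, ?_⟩
    unfold ch oo
    norm_num
    exact hε
  have hsub : U ⊆ Bl ε oo := fun z hz => ⟨hz.1, hz.2.le⟩
  refine lt_of_lt_of_le ?_ (measure_mono hsub)
  rw [pos_iff_ne_zero]
  intro h0
  unfold vol at h0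
  rw [withDensity_apply_eq_zero (by fun_prop)] at h0
  have h1 : ({x : Pt | ENNReal.ofReal (1 / x.2 ^ 3) ≠ 0} ∩ U) = U := by
    refine inter_eq_self_of_subset_right ?_
    intro z hz
    have hz' : 0 < z.2 := hz.1
    simp only [mem_ofPred_eq, ne_eq, ENNReal.ofReal_eq_zero, not_le]
    positivity
  rw [h1, Measure.restrict_apply hUo.measurableSet] at h0
  have h2 : U ∩ up = U := inter_eq_self_of_subset_left (fun z hz => hz.1)
  rw [h2] at h0
  exact (hUo.measure_pos volume ⟨oo, hUn⟩).ne' h0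

/-- the indicator of a ball -/
private noncomputable def ib (ε : ℝ) (x : Pt) : Pt → ℝ≥0∞ := (Bl ε x).indicator 1

private theorem ib_meas (ε : ℝ) (x : Pt) : Measurable (ib ε x) :=
  measurable_one.indicator (Bl_meas ε x)

private theorem ib_le (ε : ℝ) (x z : Pt) : ib ε x z ≤ 1 := by
  unfold ib
  by_cases h : z ∈ Bl ε x
  · rw [indicator_of_mem h]; rfl
  · rw [indicator_of_notMem h]; exact bot_le

/-- the number of translates in the ball -/
private noncomputable def ph {Γ : Type} [Group Γ] (ρ : Γ →* SL) (ε : ℝ) (x z : Pt) : ℝ≥0∞ :=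
  ∑' γ : Γ, ib ε x (au ρ γ z)

private theorem ph_le {Γ : Type} [Group Γ] (ρ : Γ →* SL) (A B : Set ℂ) (ha : ActOn (au ρ) up vol)
    (ε : ℝ) (x : Pt)
    (he : ∀ γ : Γ, γ ≠ 1 → ∀ z ∈ up, ch x z ≤ 1 + ε → 1 + ε < ch x (au ρ γ z))
    (z : Pt) (hz : z ∈ up) : ph ρ ε x z ≤ 1 := by
  unfold ph
  by_cases h : ∃ γ₀ : Γ, ib ε x (au ρ γ₀ z) ≠ 0
  · obtain ⟨γ₀, h0⟩ := h
    have hmem : au ρ γ₀ z ∈ Bl ε x := by
      by_contra hc
      exact h0 (indicator_of_notMem hc _)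
    rw [tsum_eq_single γ₀]
    · exact ib_le _ _ _
    · intro δ hδ
      unfold ib
      rw [indicator_of_notMem]
      intro hδm
      have h1 : δ * γ₀⁻¹ ≠ 1 := by
        intro h2
        exact hδ (by rwa [mul_inv_eq_one] at h2)
      have h3 := he _ h1 (au ρ γ₀ z) hmem.1 hmem.2
      rw [← ha.mul _ _ z hz, inv_mul_cancel_right] at h3
      exact absurd hδm.2 (not_le.2 h3)
  · push Not at h
    simp only [h, tsum_zero]
    exact bot_le

private theorem ph_meas {Γ : Type} [Group Γ] [Countable Γ] (ρ : Γ →* SL)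
    (ha : ActOn (au ρ) up vol) (ε : ℝ) (x : Pt) : Measurable (ph ρ ε x) := by
  unfold ph
  exact Measurable.tsum (fun γ => (ib_meas ε x).comp (ha.me γ))

private theorem ph_inv {Γ : Type} [Group Γ] (ρ : Γ →* SL)
    (ha : ActOn (au ρ) up vol) (ε : ℝ) (x : Pt) (γ : Γ) (z : Pt) (hz : z ∈ up) :
    ph ρ ε x (au ρ γ z) = ph ρ ε x z := by
  unfold ph
  have h : ∀ δ : Γ, ib ε x (au ρ δ (au ρ γ z)) = ib ε x (au ρ (Equiv.mulRight γ δ) z) := by
    intro δ
    rw [← ha.mul δ γ z hz]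
    rfl
  simp only [h]
  exact (Equiv.mulRight γ).tsum_eq (fun δ => ib ε x (au ρ δ z))

/-- the inner integral -/
private noncomputable def HH {Γ : Type} [Group Γ] (ρ : Γ →* SL) (ε s : ℝ) (y x' : Pt) : ℝ≥0∞ :=
  ∫⁻ y', ENNReal.ofReal (ch x' y' ^ (-s)) * ph ρ ε y y' ∂vol

private theorem HH_meas {Γ : Type} [Group Γ] [Countable Γ] (ρ : Γ →* SL)
    (ha : ActOn (au ρ) up vol) (ε s : ℝ) (y : Pt) : Measurable (HH ρ ε s y) := by
  unfold HH
  refine Measurable.lintegral_prod_right' (f := fun p : Pt × Pt =>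
    ENNReal.ofReal (ch p.1 p.2 ^ (-s)) * ph ρ ε y p.2) ?_
  exact ((ch_meas.pow_const _).ennreal_ofReal).mul ((ph_meas ρ ha ε y).comp measurable_snd)

private theorem HH_inv (hCHI : StCHI) {Γ : Type} [Group Γ] [Countable Γ] (ρ : Γ →* SL)
    (ha : ActOn (au ρ) up vol) (ε s : ℝ) (y : Pt) (γ : Γ) (x' : Pt) (hx' : x' ∈ up) :
    HH ρ ε s y (au ρ γ x') = HH ρ ε s y x' := by
  unfold HH
  have hm : Measurable (fun y' : Pt => ENNReal.ofReal (ch (au ρ γ x') y' ^ (-s)) * ph ρ ε y y') :=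
    (((ch_meas2 _).pow_const _).ennreal_ofReal).mul (ph_meas ρ ha ε y)
  rw [← ha.pr γ _ hm]
  refine lintegral_congr_ae ?_
  filter_upwards [ae_up] with z hz
  rw [ph_inv ρ ha ε y γ z hz]
  have := (hCHI.2.1 (ρ γ) x' hx' z hz).1
  unfold au
  rw [this]

/-- lower bound of the inner integral -/
private theorem HH_ge (hACT : StACT) (hCHI : StCHI) {Γ : Type} [Group Γ] [Countable Γ]
    (ρ : Γ →* SL) (ha : ActOn (au ρ) up vol) (ε s : ℝ) (hε0 : 0 < ε) (hε : ε ≤ 1) (hs1 : 0 ≤ s)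
    (hs2 : s ≤ 2) (x y : Pt) (hx : x ∈ up) (hy : y ∈ up) (x' : Pt) (hx' : x' ∈ Bl ε x) :
    vol (Bl ε y) * (ENNReal.ofReal (1 / 256) * PS ρ s x y) ≤ HH ρ ε s y x' := by
  unfold HH PS ph
  have h1 : ∀ y' : Pt, ENNReal.ofReal (ch x' y' ^ (-s)) * ∑' γ : Γ, ib ε y (au ρ γ y') =
      ∑' γ : Γ, ENNReal.ofReal (ch x' y' ^ (-s)) * ib ε y (au ρ γ y') := by
    intro y'
    rw [ENNReal.tsum_mul_left]
  simp only [h1]
  have hmm : ∀ γ : Γ, Measurable (fun y' : Pt =>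
      ENNReal.ofReal (ch x' y' ^ (-s)) * ib ε y (au ρ γ y')) := fun γ =>
    (((ch_meas2 _).pow_const _).ennreal_ofReal).mul ((ib_meas ε y).comp (ha.me γ))
  rw [lintegral_tsum (fun γ => (hmm γ).aemeasurable)]
  have h2 : (∑' γ : Γ, ENNReal.ofReal (ch x (au ρ γ y) ^ (-s))) =
      ∑' γ : Γ, ENNReal.ofReal (ch x (au ρ γ⁻¹ y) ^ (-s)) :=
    ((Equiv.inv Γ).tsum_eq (fun γ => ENNReal.ofReal (ch x (au ρ γ y) ^ (-s)))).symm
  rw [h2, ← ENNReal.tsum_mul_left, ← ENNReal.tsum_mul_left]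
  refine ENNReal.tsum_le_tsum (fun γ => ?_)
  -- one term
  have hm : Measurable (fun z : Pt => ENNReal.ofReal (ch x' (au ρ γ⁻¹ z) ^ (-s)) * ib ε y z) :=
    ((((ch_meas2 _).comp (ha.me _)).pow_const _).ennreal_ofReal).mul (ib_meas ε y)
  have h3 : ∫⁻ y', ENNReal.ofReal (ch x' y' ^ (-s)) * ib ε y (au ρ γ y') ∂vol =
      ∫⁻ z, ENNReal.ofReal (ch x' (au ρ γ⁻¹ z) ^ (-s)) * ib ε y z ∂vol := by
    rw [← ha.pr γ _ hm]
    refine lintegral_congr_ae ?_
    filter_upwards [ae_up] with z hz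
    rw [← ha.mul γ⁻¹ γ z hz, inv_mul_cancel, ha.one z hz]
  rw [h3]
  have h4 : ∀ z : Pt, (Bl ε y).indicator (fun _ => ENNReal.ofReal (1 / 256) *
      ENNReal.ofReal (ch x (au ρ γ⁻¹ y) ^ (-s))) z ≤
      ENNReal.ofReal (ch x' (au ρ γ⁻¹ z) ^ (-s)) * ib ε y z := by
    intro z
    by_cases hz : z ∈ Bl ε y
    · rw [indicator_of_mem hz]
      unfold ib
      rw [indicator_of_mem hz, Pi.one_apply, mul_one, ← ENNReal.ofReal_mul (by norm_num)]
      refine ENNReal.ofReal_le_ofReal ?_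
      have hgz : au ρ γ⁻¹ z ∈ up := ha.ms _ _ hz.1
      have hgy : au ρ γ⁻¹ y ∈ up := ha.ms _ _ hy
      have k1 := (hCHI.1 x' hx'.1 x hx).2.1
      have k2 : ch x' (au ρ γ⁻¹ z) ≤ 2 * ch x' x * ch x (au ρ γ⁻¹ z) :=
        hCHI.2.2.1 _ hx'.1 _ hx _ hgz
      have k3 : ch x (au ρ γ⁻¹ z) ≤ 2 * ch x (au ρ γ⁻¹ y) * ch (au ρ γ⁻¹ y) (au ρ γ⁻¹ z) :=
        hCHI.2.2.1 _ hx _ hgy _ hgz
      have k4 : ch (au ρ γ⁻¹ y) (au ρ γ⁻¹ z) = ch y z := (hCHI.2.1 (ρ γ⁻¹) y hy z hz.1).1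
      have k5 : ch y z ≤ 2 := by linarith [hz.2]
      have k6 : ch x x' ≤ 2 := by linarith [hx'.2]
      have k7 : 1 ≤ ch x (au ρ γ⁻¹ y) := (hCHI.1 x hx _ hgy).1
      have k8 : 1 ≤ ch x' (au ρ γ⁻¹ z) := (hCHI.1 x' hx'.1 _ hgz).1
      have k9 : 1 ≤ ch x (au ρ γ⁻¹ z) := (hCHI.1 x hx _ hgz).1
      rw [k4] at k3
      rw [k1] at k2
      have k10 : ch x (au ρ γ⁻¹ z) ≤ 4 * ch x (au ρ γ⁻¹ y) := by
        have := mul_le_mul_of_nonneg_left k5 (by positivity : 0 ≤ 2 * ch x (au ρ γ⁻¹ y))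
        linarith
      have k11 : ch x' (au ρ γ⁻¹ z) ≤ 16 * ch x (au ρ γ⁻¹ y) := by
        have := mul_le_mul_of_nonneg_right k6 (by linarith : 0 ≤ 2 * ch x (au ρ γ⁻¹ z))
        linarith
      have k12 : (16 * ch x (au ρ γ⁻¹ y)) ^ (-s) ≤ ch x' (au ρ γ⁻¹ z) ^ (-s) :=
        Real.rpow_le_rpow_of_nonpos (by linarith) k11 (by linarith)
      refine le_trans ?_ k12
      rw [Real.mul_rpow (by norm_num) (by linarith)]
      refine mul_le_mul_of_nonneg_right ?_ (Real.rpow_nonneg (by linarith) _)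
      have k13 : (16 : ℝ) ^ (-(2 : ℝ)) ≤ (16 : ℝ) ^ (-s) :=
        Real.rpow_le_rpow_of_exponent_le (by norm_num) (by linarith)
      refine le_trans (le_of_eq ?_) k13
      rw [Real.rpow_neg (by norm_num)]
      norm_num
    · rw [indicator_of_notMem hz]
      exact bot_le
  refine le_trans ?_ (lintegral_mono h4)
  rw [lintegral_indicator_const (Bl_meas ε y), mul_comm]

theorem hPK3 (hACT : Pool.Agent.Helper86.QA.StACT) (hCHI : Pool.Agent.Helper86.QA.StCHI)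
    (hVOL : Pool.Agent.Helper86.QA.StVOL) (hSW1 : Pool.Agent.Helper86.QA.StSW1)
    (hACU : Pool.Agent.Helper86.QA.StACU) (hPD3 : Pool.Agent.Helper86.QA.StPD3)
    (hPK2 : Pool.Agent.Helper85.QT.StPK2) : Pool.Agent.Helper85.QT.StPK3 := by
  intro ε hε0 hε
  set v := vol (Bl ε oo) with hv
  have hvpos : 0 < v := Bl_pos ε hε0
  have hvfin : v < ∞ := Bl_fin hCHI hVOL ε hε
  have hvr : 0 < v.toReal := ENNReal.toReal_pos hvpos.ne' hvfin.ne
  refine ⟨8192 * Real.pi / v.toReal, by positivity, ?_⟩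
  intro Γ _ ρ A B hK s σ hσ1 hσs hs2 hsum x hx y hy hex hey
  obtain ⟨hcount, ha, -⟩ := hACU Γ ρ A B hK
  obtain ⟨D, hD, -⟩ := (hPD3 Γ ρ A B hK).1 ∅ isOpen_empty (empty_subset _)
  have hvx : vol (Bl ε x) = v := vol_Bl hACT hCHI hVOL ε x hx
  have hvy : vol (Bl ε y) = v := vol_Bl hACT hCHI hVOL ε y hy
  have hp1 := ph_le ρ A B ha ε x hex
  have hp2 := ph_le ρ A B ha ε y hey
  -- integral of the counting functions
  have hint : ∀ w : Pt, w ∈ up → ∫⁻ z in D, ph ρ ε w z ∂vol = v := by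
    intro w hw
    have h := (hSW1 Γ Pt (au ρ) up D vol (fun _ => 1) ha hD measurable_const
      (fun _ _ _ => rfl)).1 (ib ε w) (ib_meas ε w)
    simp only [one_mul] at h
    unfold ph
    rw [h]
    unfold ib
    rw [lintegral_indicator_one (Bl_meas ε w)]
    exact vol_Bl hACT hCHI hVOL ε w hw
  -- Schur
  have hS := hPK2 Γ ρ A B hK s σ hσ1 hσs hs2 hsum D hD (fun z => ph ρ ε x z + ph ρ ε y z)
    ((ph_meas ρ ha ε x).add (ph_meas ρ ha ε y))
    (fun γ z hz => by rw [ph_inv ρ ha ε x γ z hz, ph_inv ρ ha ε y γ z hz])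
  have hright : ∫⁻ z in D, (ph ρ ε x z + ph ρ ε y z) ^ 2 ∂vol ≤ 4 * v := by
    have h1 : ∫⁻ z in D, (ph ρ ε x z + ph ρ ε y z) ^ 2 ∂vol ≤
        ∫⁻ z in D, (2 * ph ρ ε x z + 2 * ph ρ ε y z) ∂vol := by
      refine setLIntegral_mono' hD.mD (fun z hz => ?_)
      have h2 := hp1 z (hD.sub hz)
      have h3 := hp2 z (hD.sub hz)
      have h4 : ph ρ ε x z + ph ρ ε y z ≤ 2 := by
        calc ph ρ ε x z + ph ρ ε y z ≤ 1 + 1 := add_le_add h2 h3
          _ = 2 := by norm_num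
      calc (ph ρ ε x z + ph ρ ε y z) ^ 2 = (ph ρ ε x z + ph ρ ε y z) *
            (ph ρ ε x z + ph ρ ε y z) := sq _
        _ ≤ 2 * (ph ρ ε x z + ph ρ ε y z) := mul_le_mul_left h4 _
        _ = _ := by rw [mul_add]
    refine h1.trans (le_of_eq ?_)
    rw [lintegral_add_left ((ph_meas ρ ha ε x).const_mul 2),
      lintegral_const_mul _ (ph_meas ρ ha ε x), lintegral_const_mul _ (ph_meas ρ ha ε y),
      hint x hx, hint y hy, ← add_mul]
    norm_num
  have hleft : v * (v * (ENNReal.ofReal (1 / 256) * PS ρ s x y)) ≤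
      ∫⁻ x' in D, ∫⁻ y', ENNReal.ofReal (ch x' y' ^ (-s)) * (ph ρ ε x x' + ph ρ ε y x') *
        (ph ρ ε x y' + ph ρ ε y y') ∂vol ∂vol := by
    have h1 : ∫⁻ x' in D, HH ρ ε s y x' * ph ρ ε x x' ∂vol ≤
        ∫⁻ x' in D, ∫⁻ y', ENNReal.ofReal (ch x' y' ^ (-s)) * (ph ρ ε x x' + ph ρ ε y x') *
        (ph ρ ε x y' + ph ρ ε y y') ∂vol ∂vol := by
      refine lintegral_mono (fun x' => ?_)
      unfold HH
      have hmm : Measurable (fun y' : Pt =>
          ENNReal.ofReal (ch x' y' ^ (-s)) * ph ρ ε y y') :=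
        (((ch_meas2 _).pow_const _).ennreal_ofReal).mul (ph_meas ρ ha ε y)
      rw [← lintegral_mul_const _ hmm]
      refine lintegral_mono (fun y' => ?_)
      calc ENNReal.ofReal (ch x' y' ^ (-s)) * ph ρ ε y y' * ph ρ ε x x'
          = ENNReal.ofReal (ch x' y' ^ (-s)) * ph ρ ε x x' * ph ρ ε y y' := by ring
        _ ≤ _ := by gcongr <;> simp
    refine le_trans ?_ h1
    have h2 := (hSW1 Γ Pt (au ρ) up D vol (HH ρ ε s y) ha hD (HH_meas ρ ha ε s y)
      (fun γ z hz => HH_inv hCHI ρ ha ε s y γ z hz)).1 (ib ε x) (ib_meas ε x)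
    unfold ph
    rw [h2]
    have h3 : ∀ z : Pt, (Bl ε x).indicator (fun _ => v * (ENNReal.ofReal (1 / 256) *
        PS ρ s x y)) z ≤ HH ρ ε s y z * ib ε x z := by
      intro z
      by_cases hz : z ∈ Bl ε x
      · rw [indicator_of_mem hz]
        unfold ib
        rw [indicator_of_mem hz, Pi.one_apply, mul_one, ← hvy]
        exact HH_ge hACT hCHI ρ ha ε s hε0 hε (by linarith) hs2 x y hx hy z hz
      · rw [indicator_of_notMem hz]
        exact bot_le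
    refine le_trans (le_of_eq ?_) (lintegral_mono h3)
    rw [lintegral_indicator_const (Bl_meas ε x), hvx, mul_comm]
  have hmain : v * (v * (ENNReal.ofReal (1 / 256) * PS ρ s x y)) ≤
      ENNReal.ofReal (8 * Real.pi / (s - σ) ^ 2) * (4 * v) :=
    hleft.trans (hS.trans (mul_le_mul_right hright _))
  -- conclusion
  have hss : 0 < s - σ := by linarith
  have hne : v ≠ 0 := hvpos.ne'
  have hnt : v ≠ ∞ := hvfin.ne
  have h256 : ENNReal.ofReal (1 / 256) ≠ 0 := by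
    rw [Ne, ENNReal.ofReal_eq_zero]; norm_num
  have h5 : v * (v * (ENNReal.ofReal (1 / 256) * PS ρ s x y)) ≤
      v * (v * (ENNReal.ofReal (1 / 256) *
        ENNReal.ofReal (8192 * Real.pi / v.toReal / (s - σ) ^ 2))) := by
    refine hmain.trans (le_of_eq ?_)
    have hvv : v = ENNReal.ofReal v.toReal := (ENNReal.ofReal_toReal hnt).symm
    have h4 : (4 : ℝ≥0∞) = ENNReal.ofReal 4 := by simp
    generalize hw : v.toReal = w at *
    rw [hvv, h4, ← ENNReal.ofReal_mul (by norm_num), ← ENNReal.ofReal_mul (by positivity),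
      ← ENNReal.ofReal_mul (by norm_num), ← ENNReal.ofReal_mul (by positivity),
      ← ENNReal.ofReal_mul (by positivity)]
    congr 1
    field_simp
    norm_num
  rw [ENNReal.mul_le_mul_iff_right hne hnt, ENNReal.mul_le_mul_iff_right hne hnt,
    ENNReal.mul_le_mul_iff_right h256 ENNReal.ofReal_ne_top] at h5
  exact h5

end Pool.Agent.Helper2.QT
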