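import Pool.Agent.Helper88.QT.St1
import Pool.Agent.Helper85.QT.St1

set_option autoImplicit false

open MeasureTheory Matrix Set Topology
open scoped ENNReal ComplexConjugate

namespace Pool.Agent.Helper2.QT

open Pool.Agent.Helper88.QT Pool.Agent.Helper85.QT Pool.Agent.Helper86.QA

private theorem tri_oo (x z : Pt) (hx : x ∈ up) (hz : z ∈ up) :
    ch x z ≤ ch x oo * ch oo z + Real.sqrt (ch x oo ^ 2 - 1) * Real.sqrt (ch oo z ^ 2 - 1) := by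
  obtain ⟨⟨a, b⟩, s⟩ := x
  obtain ⟨⟨c, d⟩, t⟩ := z
  have hs : 0 < s := hx
  have ht : 0 < t := hz
  have n1 : ‖(⟨a, b⟩ : ℂ) - ⟨c, d⟩‖ ^ 2 = (a - c) ^ 2 + (b - d) ^ 2 := by
    rw [← Complex.normSq_eq_norm_sq, Complex.normSq_apply]
    simp only [Complex.sub_re, Complex.sub_im]
    ring
  have n2 : ‖(⟨a, b⟩ : ℂ) - 0‖ ^ 2 = a ^ 2 + b ^ 2 := by
    rw [sub_zero, ← Complex.normSq_eq_norm_sq, Complex.normSq_apply]
    ring
  have n3 : ‖(0 : ℂ) - ⟨c, d⟩‖ ^ 2 = c ^ 2 + d ^ 2 := by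
    rw [zero_sub, norm_neg, ← Complex.normSq_eq_norm_sq, Complex.normSq_apply]
    ring
  have e1 : ch ((⟨a, b⟩ : ℂ), s) oo = (a ^ 2 + b ^ 2 + s ^ 2 + 1) / (2 * s) := by
    unfold ch oo
    simp only [n2]
    norm_num
  have e2 : ch oo ((⟨c, d⟩ : ℂ), t) = (c ^ 2 + d ^ 2 + t ^ 2 + 1) / (2 * t) := by
    unfold ch oo
    simp only [n3]
    norm_num
    ring
  have e3 : ch ((⟨a, b⟩ : ℂ), s) ((⟨c, d⟩ : ℂ), t) =
      ((a - c) ^ 2 + (b - d) ^ 2 + s ^ 2 + t ^ 2) / (2 * s * t) := by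
    unfold ch
    simp only [n1]
  set p := (a ^ 2 + b ^ 2 + s ^ 2 - 1) / (2 * s) with hp
  set q1 := a / s with hq1
  set q2 := b / s with hq2
  set p' := (c ^ 2 + d ^ 2 + t ^ 2 - 1) / (2 * t) with hp'
  set r1 := c / t with hr1
  set r2 := d / t with hr2
  have f1 : ch ((⟨a, b⟩ : ℂ), s) oo ^ 2 - 1 = p ^ 2 + q1 ^ 2 + q2 ^ 2 := by
    rw [e1, hp, hq1, hq2]
    field_simp
    ring
  have f2 : ch oo ((⟨c, d⟩ : ℂ), t) ^ 2 - 1 = p' ^ 2 + r1 ^ 2 + r2 ^ 2 := by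
    rw [e2, hp', hr1, hr2]
    field_simp
    ring
  have f3 : ch ((⟨a, b⟩ : ℂ), s) ((⟨c, d⟩ : ℂ), t) =
      ch ((⟨a, b⟩ : ℂ), s) oo * ch oo ((⟨c, d⟩ : ℂ), t) + (-(p * p' + q1 * r1 + q2 * r2)) := by
    rw [e1, e2, e3, hp, hq1, hq2, hp', hr1, hr2]
    field_simp
    ring
  rw [f3, f1, f2, ← Real.sqrt_mul (by positivity)]
  have f4 : -(p * p' + q1 * r1 + q2 * r2) ≤
      Real.sqrt ((p ^ 2 + q1 ^ 2 + q2 ^ 2) * (p' ^ 2 + r1 ^ 2 + r2 ^ 2)) := by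
    apply Real.le_sqrt_of_sq_le
    nlinarith [sq_nonneg (p * r1 - q1 * p'), sq_nonneg (p * r2 - q2 * p'),
      sq_nonneg (q1 * r2 - q2 * r1)]
  linarith

theorem hTRI (hACT : Pool.Agent.Helper86.QA.StACT) (hCHI : Pool.Agent.Helper86.QA.StCHI) :
    Pool.Agent.Helper88.QT.StTRI := by
  have hoo : oo ∈ up := by
    change (0 : ℝ) < 1
    norm_num
  have h1 : ∀ x ∈ up, ∀ y ∈ up, ∀ z ∈ up,
      ch x z ≤ ch x y * ch y z + Real.sqrt (ch x y ^ 2 - 1) * Real.sqrt (ch y z ^ 2 - 1) := by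
    intro x hx y hy z hz
    have hgo : ga (gx y hy) oo = y := by
      rw [hACT.2.2.2.2.1 y hy oo]
      simp [oo]
    set g : SL := (gx y hy)⁻¹ with hg
    have hgy : ga g y = oo := by
      have h2 := hACT.2.1 g (gx y hy) oo hoo
      rw [hgo, hg, inv_mul_cancel, hACT.2.2.1 oo hoo] at h2
      exact h2.symm
    have k1 := (hCHI.2.1 g x hx z hz).1
    have k2 := (hCHI.2.1 g x hx y hy).1
    have k3 := (hCHI.2.1 g y hy z hz).1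
    rw [hgy] at k2 k3
    rw [← k1, ← k2, ← k3]
    exact tri_oo _ _ (hACT.1 g x hx).2.1 (hACT.1 g z hz).2.1
  refine ⟨h1, ?_⟩
  intro ε hε hε2 x hx y hy z hz hxy hyz
  have h2 := h1 x hx y hy z hz
  have k1 := (hCHI.1 x hx y hy).1
  have k2 := (hCHI.1 y hy z hz).1
  have h3 : Real.sqrt (ch x y ^ 2 - 1) * Real.sqrt (ch y z ^ 2 - 1) ≤ (1 + ε) ^ 2 - 1 := by
    have h4 : Real.sqrt (ch x y ^ 2 - 1) ≤ Real.sqrt ((1 + ε) ^ 2 - 1) :=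
      Real.sqrt_le_sqrt (by nlinarith)
    have h5 : Real.sqrt (ch y z ^ 2 - 1) ≤ Real.sqrt ((1 + ε) ^ 2 - 1) :=
      Real.sqrt_le_sqrt (by nlinarith)
    calc Real.sqrt (ch x y ^ 2 - 1) * Real.sqrt (ch y z ^ 2 - 1)
        ≤ Real.sqrt ((1 + ε) ^ 2 - 1) * Real.sqrt ((1 + ε) ^ 2 - 1) :=
          mul_le_mul h4 h5 (Real.sqrt_nonneg _) (Real.sqrt_nonneg _)
      _ = (1 + ε) ^ 2 - 1 := Real.mul_self_sqrt (by nlinarith)
  have h6 : ch x y * ch y z ≤ (1 + ε) * (1 + ε) := mul_le_mul hxy hyz (by linarith) (by linarith)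
  nlinarith

end Pool.Agent.Helper2.QT
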